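import Pool.Agent.H624.DM.FinC

/-!
# MP_54d188_lc : small everywhere-dominating families need `ℵ₁ < 𝔟` or `ℵ₁ < non(𝒩)`

If `𝔟 = non(𝒩) = ℵ₁` then there are `2 ^ ℵ₁` functions from `ω₁` to `ω` such that no function exceeds
infinitely many of them everywhere.  Hence the existence of a small
everywhere-dominating family implies `ℵ₁ < 𝔟` or `ℵ₁ < non(𝒩)`.
-/

open Cardinal Set MeasureTheory Filter

noncomputable section

namespace Pool.Agent.Results.MP_54d188_lc.BoundingAndNull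

/-- A well-order of type `ω₁`. -/
abbrev Om : Type := (ℵ₁ : Cardinal.{0}).ord.ToType

/-- Every function from `ω₁` to `ω` is exceeded everywhere by a member of `F`. -/
def EverywhereDominating (F : Set (Om → ℕ)) : Prop :=
  ∀ g : Om → ℕ, ∃ f ∈ F, ∀ a, g a < f a

/-- `𝔟`: the least size of a family of functions `ℕ → ℕ` which is not dominated, up to finitely many
values, by a single function. -/
def boundingNumber : Cardinal.{0} :=
  sInf {c | ∃ B : Set (ℕ → ℕ), #B = c ∧ ¬ ∃ h : ℕ → ℕ, ∀ b ∈ B, ∀ᶠ k in atTop, b k ≤ h k}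

/-- `non(𝒩)`: the least size of a subset of `[0,1]` which is not a Lebesgue null set. -/
def uniformityOfNull : Cardinal.{0} :=
  sInf {c | ∃ Y : Set unitInterval, #Y = c ∧ volume Y ≠ 0}

theorem sep {μ : Cardinal.{0}} (hμ : ℵ₀ < μ) (hb : boundingNumber ≤ μ)
    (hn : uniformityOfNull ≤ μ) : H624DN.Sep μ := by
  obtain ⟨B, hB1, hB2⟩ : ∃ B : Set (ℕ → ℕ), #B = boundingNumber ∧
      ¬ ∃ h : ℕ → ℕ, ∀ b ∈ B, ∀ᶠ k in atTop, b k ≤ h k := by
    refine csInf_mem (s := {c | ∃ B : Set (ℕ → ℕ), #B = c ∧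
      ¬ ∃ h : ℕ → ℕ, ∀ b ∈ B, ∀ᶠ k in atTop, b k ≤ h k}) ⟨_, Set.univ, rfl, ?_⟩
    rintro ⟨h, hh⟩
    obtain ⟨k, hk⟩ := (hh (fun k => h k + 1) (mem_univ _)).exists
    omega
  obtain ⟨Y, hY1, hY2⟩ : ∃ Y : Set unitInterval, #Y = uniformityOfNull ∧ volume Y ≠ 0 :=
    csInf_mem (s := {c | ∃ Y : Set unitInterval, #Y = c ∧ volume Y ≠ 0})
      ⟨_, Set.univ, rfl, by simp⟩
  exact H624DN.sep_of hμ.le B (hB1.trans_le hb) hB2 Y (hY1.trans_le hn) hY2

theorem family (hb : boundingNumber ≤ ℵ₁) (hn : uniformityOfNull ≤ ℵ₁) :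
    ∃ G : Set Om → Om → ℕ, ∀ f : Om → ℕ, {S | ∀ a, G S a < f a}.Finite := by
  have h1 := sep aleph0_lt_aleph_one hb hn
  obtain ⟨G, hG⟩ := H624DN.count_fin (α := Om) (β := Om) (by simp [Om])
    (by rwa [mk_ord_toType]) (H624DN.hit_omega1 (by rw [mk_ord_toType]))
  exact ⟨G, fun f => (hG f).subset fun S hS a => (hS a).le⟩

/-- (1) If there is an everywhere-dominating family of functions from `ω₁` to `ω` with fewer than
`2 ^ ℵ₁` members, then `ℵ₁ < 𝔟` or `ℵ₁ < non(𝒩)`.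

(2) If `𝔟` and `non(𝒩)` are at most `ℵ₁`, there are functions `G S` from `ω₁` to `ω`, one for each
subset `S` of `ω₁`, such that every function exceeds only finitely many of them everywhere. -/
theorem result :
    (∀ F : Set (Om → ℕ), EverywhereDominating F → #F < 2 ^ (ℵ₁ : Cardinal.{0}) →
      ℵ₁ < boundingNumber ∨ ℵ₁ < uniformityOfNull) ∧
    (boundingNumber ≤ ℵ₁ → uniformityOfNull ≤ ℵ₁ →
      ∃ G : Set Om → Om → ℕ, ∀ f : Om → ℕ, {S | ∀ a, G S a < f a}.Finite) := by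
  refine ⟨fun F hF hlt => ?_, family⟩
  by_contra hcon
  simp only [not_or, not_lt] at hcon
  obtain ⟨G, hG⟩ := family hcon.1 hcon.2
  have hcov : (⋃ f : F, {S | ∀ a, G S a < (f : Om → ℕ) a}) = (univ : Set (Set Om)) := by
    refine eq_univ_of_forall fun S => ?_
    obtain ⟨f, hf, hfg⟩ := hF (G S)
    exact mem_iUnion.2 ⟨⟨f, hf⟩, hfg⟩
  have h3 : (2 : Cardinal.{0}) ^ (ℵ₁ : Cardinal.{0}) ≤ #F * ℵ₀ := by
    calc (2 : Cardinal.{0}) ^ (ℵ₁ : Cardinal.{0}) = #(Set Om) := by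
          rw [mk_set, mk_ord_toType]
      _ = #(univ : Set (Set Om)) := mk_univ.symm
      _ = #(⋃ f : F, {S | ∀ a, G S a < (f : Om → ℕ) a} : Set (Set Om)) := by rw [hcov]
      _ ≤ Cardinal.sum (fun f : F => #{S | ∀ a, G S a < (f : Om → ℕ) a}) := mk_iUnion_le_sum_mk
      _ ≤ Cardinal.sum (fun _ : F => ℵ₀) :=
          sum_le_sum _ _ (fun f => (lt_aleph0_iff_set_finite.2 (hG f)).le)
      _ = #F * ℵ₀ := by simp
  have h4 : ℵ₀ < (2 : Cardinal.{0}) ^ (ℵ₁ : Cardinal.{0}) :=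
    aleph0_lt_aleph_one.trans (cantor _)
  exact (H624DM.le_of_le_mul h4.le h3 h4).not_gt hlt

end Pool.Agent.Results.MP_54d188_lc.BoundingAndNull
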