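import Pool.Agent.H624.DM.FinC

/-!
# MP_54d188_lc : a stepping-up theorem for families of functions from `ω₁` to `ω`

If there are `2 ^ ℵ₀` functions from `ω₁` to `ω` such that no function exceeds infinitely many of them
everywhere, then there are `2 ^ ℵ₁` such functions, and there is no small
everywhere-dominating family.  The assumption holds if there are `2 ^ ℵ₀` functions from `ω₁` to `ω₁`
any two of which agree at countably many points only.  There is also no small everywhere-dominating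
family if there are `2 ^ ℵ₀` functions from `ω₁` to `ω` such that no function exceeds uncountably many
of them everywhere.
-/

open Cardinal Set

noncomputable section

namespace Pool.Agent.Results.MP_54d188_lc.SteppingUp

/-- A well-order of type `ω₁`. -/
abbrev Om : Type := (ℵ₁ : Cardinal.{0}).ord.ToType

/-- Every function from `ω₁` to `ω` is exceeded everywhere by a member of `F`. -/
def EverywhereDominating (F : Set (Om → ℕ)) : Prop :=
  ∀ g : Om → ℕ, ∃ f ∈ F, ∀ a, g a < f a

/-- There are functions `G i` from `ω₁` to `ω`, one for each `i` in a set of size `κ`, such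
that no function exceeds `G i` everywhere for infinitely many `i`. -/
def FiniteToOneFamily (κ : Cardinal.{0}) : Prop :=
  ∃ (I : Type) (G : I → Om → ℕ), #I = κ ∧ ∀ f : Om → ℕ, {i | ∀ a, G i a < f a}.Finite

/-- There are functions `G i` from `ω₁` to `ω`, one for each `i` in a set of size `κ`, such
that no function exceeds `G i` everywhere for uncountably many `i`. -/
def CountableToOneFamily (κ : Cardinal.{0}) : Prop :=
  ∃ (I : Type) (G : I → Om → ℕ), #I = κ ∧ ∀ f : Om → ℕ, {i | ∀ a, G i a < f a}.Countable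

/-- There is a set of `κ` functions from `ℕ` to `ℕ` such that no function exceeds uncountably many
of them everywhere. -/
def LusinTypeSet (κ : Cardinal.{0}) : Prop :=
  ∃ X : Set (ℕ → ℕ), #X = κ ∧ ∀ h : ℕ → ℕ, {x ∈ X | ∀ n, x n < h n}.Countable

/-- There are `κ` functions from `ω₁` to `ω₁` any two of which agree at countably many points
only. -/
def AlmostDifferentFamily (κ : Cardinal.{0}) : Prop :=
  ∃ (I : Type) (E : I → Om → Om), #I = κ ∧ ∀ i j, i ≠ j → {a | E i a = E j a}.Countable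

theorem card_Om : #Om = ℵ₁ := mk_ord_toType _

theorem countable_Iio (i : Om) : (Iio i).Countable := by
  have h1 : #(Iio i) < ℵ₁ := mk_Iio_toType_ord_lt i
  have h2 : #(Iio i) < Order.succ ℵ₀ := h1.trans_eq succ_aleph0.symm
  exact mk_le_aleph0_iff.1 (Order.lt_succ_iff.1 h2)

theorem bounded {Y : Set Om} (hY : Y.Countable) : ∃ i, ∀ y ∈ Y, y < i := by
  have hnc : ¬ IsCofinal Y := by
    intro hc
    have h1 := Order.cof_le hc
    rw [Ordinal.cof_toType, isRegular_aleph_one.cof_ord] at h1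
    exact (aleph0_lt_aleph_one.trans_le (h1.trans hY.le_aleph0)).false
  simp only [IsCofinal, not_forall, not_exists, not_and, not_le] at hnc
  exact hnc

theorem sep_of_family (h : FiniteToOneFamily continuum) : H624DN.Sep ℵ₁ := by
  obtain ⟨I, G, hI, hG⟩ := h
  obtain ⟨e⟩ : Nonempty (Set ℕ ≃ I) := by
    rw [← Cardinal.eq, hI]
    simp
  refine ⟨Om, fun T a => G (e T) a, card_Om.le, fun F => ?_⟩
  have h1 := (hG (fun a => F a + 1)).preimage (f := e) e.injective.injOn
  refine h1.subset fun T hT => ?_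
  intro a
  exact Nat.lt_succ_of_le (hT a)

theorem step (h : H624DN.Sep ℵ₁) : FiniteToOneFamily (2 ^ (ℵ₁ : Cardinal.{0})) := by
  obtain ⟨G, hG⟩ := H624DN.count_fin (α := Om) (β := Om) (by simp [Om])
    (by rwa [mk_ord_toType]) (H624DN.hit_omega1 (by rw [mk_ord_toType]))
  refine ⟨Set Om, G, by rw [mk_set, card_Om], fun f => (hG f).subset fun S hS a => (hS a).le⟩

theorem no_small (h : FiniteToOneFamily (2 ^ (ℵ₁ : Cardinal.{0}))) (F : Set (Om → ℕ))
    (hF : EverywhereDominating F) : 2 ^ (ℵ₁ : Cardinal.{0}) ≤ #F := by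
  obtain ⟨I, G, hI, hG⟩ := h
  have hcov : (⋃ f : F, {S | ∀ a, G S a < (f : Om → ℕ) a}) = (univ : Set I) := by
    refine eq_univ_of_forall fun S => ?_
    obtain ⟨f, hf, hfg⟩ := hF (G S)
    exact mem_iUnion.2 ⟨⟨f, hf⟩, hfg⟩
  have h3 : (2 : Cardinal.{0}) ^ (ℵ₁ : Cardinal.{0}) ≤ #F * ℵ₀ := by
    calc (2 : Cardinal.{0}) ^ (ℵ₁ : Cardinal.{0}) = #I := hI.symm
      _ = #(univ : Set I) := mk_univ.symm
      _ = #(⋃ f : F, {S | ∀ a, G S a < (f : Om → ℕ) a} : Set I) := by rw [hcov]
      _ ≤ Cardinal.sum (fun f : F => #{S | ∀ a, G S a < (f : Om → ℕ) a}) := mk_iUnion_le_sum_mk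
      _ ≤ Cardinal.sum (fun _ : F => ℵ₀) :=
          sum_le_sum _ _ (fun f => (lt_aleph0_iff_set_finite.2 (hG f)).le)
      _ = #F * ℵ₀ := by simp
  have h4 : ℵ₀ < (2 : Cardinal.{0}) ^ (ℵ₁ : Cardinal.{0}) :=
    aleph0_lt_aleph_one.trans (cantor _)
  exact H624DM.le_of_le_mul h4.le h3 h4

theorem family_of_different (h : AlmostDifferentFamily continuum) :
    FiniteToOneFamily continuum := by
  classical
  obtain ⟨I, E, hI, hE⟩ := h
  have hc : ∀ η : Om, ∃ c : Om → ℕ, InjOn c (Iio η) := fun η =>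
    Set.countable_iff_exists_injOn.1 (countable_Iio η)
  choose c hc using hc
  obtain ⟨e⟩ : Nonempty (Om ≃ Om × Om) := by
    rw [← Cardinal.eq, mk_prod, lift_id, mul_eq_self (by simp [Om])]
  refine ⟨I, fun i a => if E i (e a).1 < (e a).2 then c (e a).2 (E i (e a).1) else 0, hI,
    fun f => ?_⟩
  by_contra hinf
  let t : ℕ ↪ _ := Set.Infinite.natEmbedding _ hinf
  have hcount : (⋃ p : ℕ × ℕ, {a | p.1 ≠ p.2 ∧ E (t p.1) a = E (t p.2) a}).Countable := by
    refine Set.countable_iUnion fun p => ?_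
    by_cases hp : p.1 = p.2
    · simp [hp]
    · refine (hE (t p.1) (t p.2) fun h => hp (t.injective (Subtype.ext h))).mono fun a ha => ha.2
  obtain ⟨ξ, hξ⟩ := bounded hcount
  have hξ' : ∀ i j : ℕ, i ≠ j → E (t i) ξ ≠ E (t j) ξ := fun i j hij heq =>
    (hξ ξ (mem_iUnion.2 ⟨(i, j), hij, heq⟩)).false
  obtain ⟨η, hη⟩ := bounded (Set.countable_range fun n : ℕ => E (t n) ξ)
  have hlt : ∀ n : ℕ, c η (E (t n) ξ) < f (e.symm (ξ, η)) := by
    intro n
    have h1 := (t n).2 (e.symm (ξ, η))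
    simp only [Equiv.apply_symm_apply] at h1
    rwa [if_pos (hη _ ⟨n, rfl⟩)] at h1
  obtain ⟨i, j, hij, hc2⟩ := Finite.exists_ne_map_eq_of_infinite
    (fun n : ℕ => (⟨c η (E (t n) ξ), hlt n⟩ : Fin (f (e.symm (ξ, η)))))
  exact hξ' i j hij (hc η (hη _ ⟨i, rfl⟩) (hη _ ⟨j, rfl⟩) (congrArg Fin.val hc2))

theorem countable_case (h : CountableToOneFamily continuum) (F : Set (Om → ℕ))
    (hF : EverywhereDominating F) : 2 ^ (ℵ₁ : Cardinal.{0}) ≤ #F := by
  classical
  by_cases hAD : AlmostDifferentFamily continuum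
  · exact no_small (step (sep_of_family (family_of_different hAD))) F hF
  obtain ⟨I, G, hI, hG⟩ := h
  have hcF : (continuum : Cardinal.{0}) ≤ #F := by
    have hcov : (⋃ f : F, {i | ∀ a, G i a < (f : Om → ℕ) a}) = (univ : Set I) := by
      refine eq_univ_of_forall fun i => ?_
      obtain ⟨f, hf, hfg⟩ := hF (G i)
      exact mem_iUnion.2 ⟨⟨f, hf⟩, hfg⟩
    have h3 : (continuum : Cardinal.{0}) ≤ #F * ℵ₀ := by
      calc (continuum : Cardinal.{0}) = #I := hI.symm
        _ = #(univ : Set I) := mk_univ.symm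
        _ = #(⋃ f : F, {i | ∀ a, G i a < (f : Om → ℕ) a} : Set I) := by rw [hcov]
        _ ≤ Cardinal.sum (fun f : F => #{i | ∀ a, G i a < (f : Om → ℕ) a}) := mk_iUnion_le_sum_mk
        _ ≤ Cardinal.sum (fun _ : F => ℵ₀) := sum_le_sum _ _ (fun f => (hG f).le_aleph0)
        _ = #F * ℵ₀ := by simp
    exact H624DM.le_of_le_mul aleph0_le_continuum h3 aleph0_lt_continuum
  -- codes of the subsets of initial segments
  have hcode : ∀ δ : Om, Nonempty (Set (Iio δ) ↪ I) := by
    intro δ
    rw [← Cardinal.le_def, hI, mk_set, ← two_power_aleph0]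
    exact power_le_power_left two_ne_zero (countable_Iio δ).le_aleph0
  let code : Om → Set Om → I := fun δ S => (hcode δ).some (Subtype.val ⁻¹' S)
  obtain ⟨e⟩ : Nonempty (Om ≃ Om × Om) := by
    rw [← Cardinal.eq, mk_prod, lift_id, mul_eq_self (by simp [Om])]
  let 𝒮 : (Om → ℕ) → Set (Set Om) := fun f => {S | ∀ a, G (code (e a).1 S) (e a).2 < f a}
  have hlev : ∀ (f : Om → ℕ) (δ : Om), (code δ '' 𝒮 f).Countable := by
    intro f δ
    refine (hG (fun b => f (e.symm (δ, b)))).mono ?_
    rintro _ ⟨S, hS, rfl⟩ b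
    have := hS (e.symm (δ, b))
    simpa only [Equiv.apply_symm_apply] using this
  obtain ⟨e0⟩ : Nonempty (ℕ ↪ Om) := by
    rw [← Cardinal.le_def, card_Om]
    simp
  have hsmall : ∀ f : Om → ℕ, #(𝒮 f) ≤ continuum := by
    intro f
    by_contra hbig
    rw [not_le] at hbig
    obtain ⟨p, hp, hpc⟩ := le_mk_iff_exists_subset.1 hbig.le
    apply hAD
    have hidx : ∀ δ : Om, ∃ c : I → ℕ, InjOn c (code δ '' 𝒮 f) := fun δ =>
      Set.countable_iff_exists_injOn.1 (hlev f δ)
    choose c hc using hidx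
    refine ⟨p, fun S δ => e0 (c δ (code δ S)), hpc, fun S S' hne => ?_⟩
    have hne' : (S : Set Om) ≠ S' := fun h => hne (Subtype.ext h)
    obtain ⟨x, hx⟩ : ∃ x, ¬ (x ∈ (S : Set Om) ↔ x ∈ (S' : Set Om)) := by
      by_contra hno
      push Not at hno
      exact hne' (Set.ext hno)
    refine ((countable_Iio x).union (Set.countable_singleton x)).mono fun δ hδ => ?_
    by_contra hδx
    simp only [mem_union, mem_Iio, mem_singleton_iff, not_or, not_lt] at hδx
    have hlt : x < δ := lt_of_le_of_ne hδx.1 (fun h => hδx.2 h.symm)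
    have h1 : code δ S = code δ S' :=
      hc δ ⟨_, hp S.2, rfl⟩ ⟨_, hp S'.2, rfl⟩ (e0.injective hδ)
    have h2 : (Subtype.val ⁻¹' (S : Set Om) : Set (Iio δ)) = Subtype.val ⁻¹' (S' : Set Om) :=
      (hcode δ).some.injective h1
    apply hx
    have h3 : (⟨x, hlt⟩ : Iio δ) ∈ (Subtype.val ⁻¹' (S : Set Om) : Set (Iio δ)) ↔
        (⟨x, hlt⟩ : Iio δ) ∈ (Subtype.val ⁻¹' (S' : Set Om) : Set (Iio δ)) := by rw [h2]
    exact h3
  have hcov : (⋃ f : F, 𝒮 f) = (univ : Set (Set Om)) := by
    refine eq_univ_of_forall fun S => ?_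
    obtain ⟨f, hf, hfg⟩ := hF (fun a => G (code (e a).1 S) (e a).2)
    exact mem_iUnion.2 ⟨⟨f, hf⟩, hfg⟩
  calc (2 : Cardinal.{0}) ^ (ℵ₁ : Cardinal.{0}) = #(Set Om) := by rw [mk_set, card_Om]
    _ = #(univ : Set (Set Om)) := mk_univ.symm
    _ = #(⋃ f : F, 𝒮 f : Set (Set Om)) := by rw [hcov]
    _ ≤ Cardinal.sum (fun f : F => #(𝒮 f)) := mk_iUnion_le_sum_mk
    _ ≤ Cardinal.sum (fun _ : F => (continuum : Cardinal.{0})) :=
        sum_le_sum _ _ (fun f => hsmall f)
    _ = #F * continuum := by simp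
    _ ≤ #F * #F := mul_le_mul' le_rfl hcF
    _ = #F := mul_eq_self (aleph0_le_continuum.trans hcF)

theorem of_lusin {κ : Cardinal.{0}} (h : LusinTypeSet κ) : CountableToOneFamily κ := by
  classical
  obtain ⟨X, hX, hc⟩ := h
  obtain ⟨e0⟩ : Nonempty (ℕ ↪ Om) := by
    rw [← Cardinal.le_def, card_Om]
    simp
  refine ⟨X, fun x => Function.extend e0 (x : ℕ → ℕ) 0, hX, fun f => ?_⟩
  have h2 : {i : X | ∀ a, Function.extend e0 (i : ℕ → ℕ) 0 a < f a} ⊆
      (Subtype.val : X → ℕ → ℕ) ⁻¹' {x ∈ X | ∀ n, x n < f (e0 n)} := by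
    intro x hx
    refine ⟨x.2, fun n => ?_⟩
    have h1 : Function.extend e0 (x : ℕ → ℕ) 0 (e0 n) < f (e0 n) := hx (e0 n)
    rwa [e0.injective.extend_apply] at h1
  exact ((hc (fun n => f (e0 n))).preimage Subtype.val_injective).mono h2

/-- (1) If there are `2 ^ ℵ₀` functions from `ω₁` to `ω` such that no function exceeds infinitely many
of them, then there are `2 ^ ℵ₁` such functions. (2) If there are `2 ^ ℵ₀` functions from `ω₁`
to `ω` such that no function exceeds uncountably many of them, then every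
everywhere-dominating family has size at least `2 ^ ℵ₁`. (3) The assumption of (1) holds if there
are `2 ^ ℵ₀` functions from `ω₁` to `ω₁` any two of which agree at countably many points only.
(4) The assumption of (2) holds if there is a set of `2 ^ ℵ₀` functions from `ℕ` to `ℕ` such that no
function exceeds uncountably many of them. -/
theorem result :
    (FiniteToOneFamily continuum → FiniteToOneFamily (2 ^ (ℵ₁ : Cardinal.{0}))) ∧
    (CountableToOneFamily continuum →
      ∀ F : Set (Om → ℕ), EverywhereDominating F → 2 ^ (ℵ₁ : Cardinal.{0}) ≤ #F) ∧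
    (AlmostDifferentFamily continuum → FiniteToOneFamily continuum) ∧
    (LusinTypeSet continuum → CountableToOneFamily continuum) :=
  ⟨fun h => step (sep_of_family h), countable_case, family_of_different, of_lusin⟩

end Pool.Agent.Results.MP_54d188_lc.SteppingUp
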